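import Pool.Agent.Q44.MX.StmD

/-!
# Job MX-SHR: the classes of the labels have the same share
-/

set_option autoImplicit false

open scoped Classical

namespace Pool.Agent.Q237.MX

open Finset Filter Topology
open Q44.JQ
open Q44.BM (mer_cls)

/-- the residues with the label `φ` -/
noncomputable def Sf (T : Finset ℕ) (φ : Option T → ZMod 2) : Finset ℕ :=
  (range (MT T)).filter fun a => a.Coprime (MT T) ∧ lbl T a = φ

lemma mem_Sf {T : Finset ℕ} {φ : Option T → ZMod 2} {a : ℕ} :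
    a ∈ Sf T φ ↔ a < MT T ∧ a.Coprime (MT T) ∧ lbl T a = φ := by
  unfold Sf
  rw [mem_filter, mem_range]

lemma mod_cop {n M : ℕ} : (n % M).Coprime M ↔ n.Coprime M := by
  unfold Nat.Coprime
  rw [← Nat.gcd_rec, Nat.gcd_comm]

lemma sf_step {T : Finset ℕ} (L : LB T) (φ ψ : Option T → ZMod 2) :
    (Sf T φ).card ≤ (Sf T (φ + ψ)).card := by
  obtain ⟨p, hp, -, hpT, hl⟩ := L.ex ψ 0
  have hc : Cop T p := (L.toTS.prime_cop hp).2 hpT
  have hcM : p.Coprime (MT T) := L.toTS.cop.2 hc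
  have hM := L.toTS.M_pos
  apply Finset.card_le_card_of_injOn (fun a => a * p % MT T)
  · intro a ha
    rw [Finset.mem_coe, mem_Sf] at ha
    rw [Finset.mem_coe, mem_Sf]
    have hcop : (a * p).Coprime (MT T) := Nat.Coprime.mul_left ha.2.1 hcM
    refine ⟨Nat.mod_lt _ hM, mod_cop.2 hcop, ?_⟩
    rw [L.lbl_mod (L.toTS.cop.1 hcop), L.add a p (L.toTS.cop.1 ha.2.1) hc, ha.2.2, hl]
  · intro a ha b hb hab
    rw [Finset.mem_coe, mem_Sf] at ha hb
    have h1 : a * p ≡ b * p [MOD MT T] := hab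
    have h2 : a ≡ b [MOD MT T] := Nat.ModEq.cancel_right_of_coprime
      (by rw [Nat.gcd_comm]; exact hcM) h1
    have h3 : a % MT T = b % MT T := h2
    rwa [Nat.mod_eq_of_lt ha.1, Nat.mod_eq_of_lt hb.1] at h3

lemma sf_eq {T : Finset ℕ} (L : LB T) (φ ψ : Option T → ZMod 2) :
    (Sf T φ).card = (Sf T ψ).card := by
  apply le_antisymm
  · have h := sf_step L φ (ψ - φ)
    rwa [add_sub_cancel] at h
  · have h := sf_step L ψ (φ - ψ)
    rwa [add_sub_cancel] at h

lemma sf_card {T : Finset ℕ} (L : LB T) (φ : Option T → ZMod 2) :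
    2 ^ (T.card + 1) * (Sf T φ).card = (MT T).totient := by
  have h1 : (MT T).totient = ∑ ψ : Option T → ZMod 2, (Sf T ψ).card := by
    rw [Nat.totient_eq_card_coprime]
    rw [Finset.card_eq_sum_card_fiberwise (f := lbl T) (t := (univ : Finset (Option T → ZMod 2)))
      (fun a _ => Finset.mem_coe.2 (mem_univ _))]
    refine Finset.sum_congr rfl fun ψ _ => ?_
    congr 1
    ext a
    rw [mem_Sf, mem_filter, mem_filter, mem_range, Nat.coprime_comm, and_assoc]
  rw [h1, Finset.sum_congr rfl (fun ψ _ => sf_eq L ψ φ), Finset.sum_const, smul_eq_mul]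
  congr 1
  rw [Finset.card_univ, Fintype.card_fun, Fintype.card_option, Fintype.card_coe, ZMod.card]

theorem t_SHR : Q44.MX.S_SHR := by
  intro T L φ
  have hM := L.toTS.M_pos
  obtain ⟨C, hC⟩ := mer_cls hM (Sf T φ) (fun a ha => by
    rw [mem_Sf] at ha
    exact ⟨ha.1, ha.2.1⟩)
  refine ⟨C, fun y hy => ?_⟩
  have h1 := hC y hy
  have e : ∀ p : ℕ, (p.Prime ∧ clT T φ p) ↔ (p.Prime ∧ p % MT T ∈ Sf T φ) := by
    intro p
    refine and_congr_right fun hp => ?_
    unfold clT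
    rw [mem_Sf]
    constructor
    · rintro ⟨-, hpT, hl⟩
      have hc : Cop T p := (L.toTS.prime_cop hp).2 hpT
      refine ⟨Nat.mod_lt _ hM, mod_cop.2 (L.toTS.cop.2 hc), ?_⟩
      rw [L.lbl_mod hc]
      exact hl
    · rintro ⟨-, h2, h3⟩
      have hc := L.toTS.cop.1 (mod_cop.1 h2)
      refine ⟨hp, (L.toTS.prime_cop hp).1 hc, ?_⟩
      rw [← L.lbl_mod hc]
      exact h3
  have e2 : (range (y + 1)).filter (fun p => p.Prime ∧ clT T φ p) =
      (range (y + 1)).filter (fun p => p.Prime ∧ p % MT T ∈ Sf T φ) :=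
    Finset.filter_congr fun p _ => e p
  have h3 := sf_card L φ
  have h4 : (((Sf T φ).card : ℕ) : ℝ) / ((MT T).totient : ℝ) = 1 / 2 ^ (T.card + 1) := by
    have h5 : (0 : ℝ) < ((MT T).totient : ℝ) := by
      exact_mod_cast Nat.totient_pos.2 hM
    rw [div_eq_div_iff h5.ne' (by positivity), one_mul, ← h3]
    push_cast
    ring
  rw [e2, ← h4]
  exact h1

end Pool.Agent.Q237.MX
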