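import Pool.Agent.Q44.MX.StmD
import Pool.Agent.Q239.GPD.Turan

/-!
# Job MX-TUR: the theorem of Turán for the prime divisors in a class
-/

set_option autoImplicit false

open scoped Classical

namespace Pool.Agent.Q237.MX

open Finset Filter Topology
open Pool.Agent.Q239.GPD (turan Y mu)

/-- the count by the second moment -/
lemma tur_count (c : ℕ → Prop) {X : ℕ} {A t : ℝ} (ht : 0 < t)
    (hA : A = ∑ p ∈ (range (X + 1)).filter (fun p => p.Prime ∧ c p), (1 : ℝ) / p) :
    (((Icc 1 X).filter fun n => t <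
      |((n.primeFactors.filter fun p => c p).card : ℝ) - A|).card : ℝ) * t ^ 2 ≤ 3 * A * X := by
  set P := (range (X + 1)).filter (fun p => p.Prime ∧ c p) with hP
  have hPp : ∀ p ∈ P, p.Prime := fun p hp => (mem_filter.1 hp).2.1
  have hmu : mu P (fun _ => 1) = A := hA.symm
  have hA0 : 0 ≤ A := by
    rw [hA]
    exact sum_nonneg fun p _ => by positivity
  have hY : ∀ n ∈ Icc 1 X, Y P (fun _ => 1) n = ((n.primeFactors.filter fun p => c p).card : ℝ) := by
    intro n hn
    rw [mem_Icc] at hn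
    unfold Y
    rw [Finset.sum_boole]
    congr 2
    ext p
    simp only [hP, mem_filter, mem_range, Nat.mem_primeFactors]
    constructor
    · rintro ⟨⟨-, h1, h2⟩, h3⟩
      exact ⟨⟨h1, h3, by omega⟩, h2⟩
    · rintro ⟨⟨h1, h3, h4⟩, h2⟩
      refine ⟨⟨?_, h1, h2⟩, h3⟩
      have := Nat.le_of_dvd (by omega) h3
      omega
  have h1 := turan (P := P) (g := fun _ => 1) (c := 1) hPp (fun _ _ => zero_le_one)
    (fun _ _ => le_refl _) X
  rw [hmu] at h1
  have hcard : (P.card : ℝ) ≤ X := by
    have h2 : P ⊆ Icc 1 X := by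
      intro p hp
      have h3 := (hPp p hp).pos
      have h4 := (mem_filter.1 hp).1
      rw [mem_range] at h4
      rw [mem_Icc]
      omega
    have h5 := card_le_card h2
    rw [Nat.card_Icc] at h5
    exact_mod_cast (by omega : P.card ≤ X)
  have h2 : 1 * A * X + 2 * A * (1 * P.card) ≤ 3 * A * X := by nlinarith
  refine le_trans ?_ (h1.trans h2)
  rw [← nsmul_eq_mul, ← Finset.sum_const]
  have hsub : ((Icc 1 X).filter fun n => t <
      |((n.primeFactors.filter fun p => c p).card : ℝ) - A|) ⊆ Icc 1 X := filter_subset _ _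
  refine le_trans ?_ (Finset.sum_le_sum_of_subset_of_nonneg hsub (fun n _ _ => sq_nonneg _))
  refine Finset.sum_le_sum fun n hn => ?_
  rw [mem_filter] at hn
  rw [hY n hn.1, ← sq_abs (((n.primeFactors.filter fun p => c p).card : ℝ) - A)]
  exact pow_le_pow_left₀ ht.le hn.2.le 2

theorem t_TUR : Q44.MX.S_TUR := by
  intro c w hw hC θ hθ
  obtain ⟨C, hC⟩ := hC
  have hC0 : 0 ≤ C := (abs_nonneg _).trans (hC 3 le_rfl)
  have hL : Tendsto (fun X : ℕ => Real.log (Real.log (X : ℝ))) atTop atTop :=
    Real.tendsto_log_atTop.comp (Real.tendsto_log_atTop.comp tendsto_natCast_atTop_atTop)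
  set M : ℝ := max (max 1 (2 * C / θ)) (12 * (w + C) / θ ^ 3) with hM
  filter_upwards [hL.eventually_ge_atTop M, eventually_ge_atTop 3] with X hX hX3
  set L : ℝ := Real.log (Real.log (X : ℝ)) with hLdef
  have hL1 : 1 ≤ L := ((le_max_left _ _).trans (le_max_left _ _)).trans hX
  have hL2 : 2 * C / θ ≤ L := ((le_max_right _ _).trans (le_max_left _ _)).trans hX
  have hL3 : 12 * (w + C) / θ ^ 3 ≤ L := (le_max_right _ _).trans hX
  set A : ℝ := ∑ p ∈ (range (X + 1)).filter (fun p => p.Prime ∧ c p), (1 : ℝ) / p with hA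
  have hAC := hC X hX3
  rw [← hA, ← hLdef] at hAC
  have hX0 : (0 : ℝ) ≤ X := Nat.cast_nonneg X
  have ht : 0 < θ * L / 2 := by positivity
  have h1 := tur_count c (X := X) ht hA
  have h2 : ((Icc 1 X).filter fun n => θ * L <
      |((n.primeFactors.filter fun p => c p).card : ℝ) - w * L|) ⊆
      (Icc 1 X).filter fun n => θ * L / 2 <
        |((n.primeFactors.filter fun p => c p).card : ℝ) - A| := by
    intro n hn
    rw [mem_filter] at hn ⊢
    refine ⟨hn.1, ?_⟩
    have h3 : |((n.primeFactors.filter fun p => c p).card : ℝ) - w * L| ≤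
        |((n.primeFactors.filter fun p => c p).card : ℝ) - A| + |A - w * L| :=
      abs_sub_le _ _ _
    have h4 : 2 * C ≤ L * θ := by rwa [div_le_iff₀ hθ] at hL2
    have h5 := hn.2
    linarith [hAC]
  have h3 : ((((Icc 1 X).filter fun n => θ * L <
      |((n.primeFactors.filter fun p => c p).card : ℝ) - w * L|).card : ℕ) : ℝ) ≤
      ((((Icc 1 X).filter fun n => θ * L / 2 <
        |((n.primeFactors.filter fun p => c p).card : ℝ) - A|).card : ℕ) : ℝ) := by
    exact_mod_cast card_le_card h2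
  refine h3.trans ?_
  have hAle : A ≤ (w + C) * L := by
    have := (abs_le.1 hAC).2
    nlinarith
  -- the number is at most `12 A X / (θ L)²`
  have h4 : 12 * (w + C) ≤ θ ^ 3 * L := by
    rw [div_le_iff₀ (by positivity)] at hL3
    linarith
  have h5 : 3 * A * X ≤ θ * X * (θ * L / 2) ^ 2 := by
    have h6 : 3 * A * X ≤ 3 * ((w + C) * L) * X := by
      apply mul_le_mul_of_nonneg_right _ hX0
      linarith
    refine h6.trans ?_
    have h7 : θ * X * (θ * L / 2) ^ 2 = θ ^ 3 * L * L * X / 4 := by ring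
    rw [h7]
    have h8 : 12 * (w + C) * (L * X) ≤ θ ^ 3 * L * (L * X) :=
      mul_le_mul_of_nonneg_right h4 (by positivity)
    nlinarith
  have h6 := h1.trans h5
  exact le_of_mul_le_mul_right h6 (by positivity)

end Pool.Agent.Q237.MX
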